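import Mathlib

/-!
# The sign pattern of the perturbed Hofstadter sequence is not eventually 4-regular

With `A m = (Q (2m-1) + 1)/2`, `B m = (Q (2m) + 1)/2` the integers split into phases.  For
`a = a_r`, `c = r + 2`, `u = 2 a - c`, `v = 4 a - c` one has `A m + B m = m + c` on `[u, v]` and
`A m + B m ∈ {m + c, m + c + 1}` on `[v, u']`, where `u' = u_{r+1}`; `B - A` is positive inside the
first interval and negative inside the second.  So `Q (2 v_r) - Q (2 v_r - 1) = 0` is preceded by a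
long run of positive differences at odd indices, and `2 v_r - 1 = (4^(r+3) - 1)/3 - 2 r - 2` is not
compatible with a finite `4`-kernel.
-/

set_option autoImplicit false

namespace Pool.Agent.Results.MP_f18a8d_nt.NotRegular

/-- The perturbed Hofstadter recursion: `Q 1 = Q 2 = 1` and, for every `n ≥ 3`, the indices
`n - Q (n-1)` and `n - Q (n-2)` both lie in `{1, …, n-1}` and
`Q n = Q (n - Q (n-1)) + Q (n - Q (n-2)) + (-1)^n`. -/
def IsQ (Q : ℕ → ℤ) : Prop :=
  Q 1 = 1 ∧ Q 2 = 1 ∧ ∀ n : ℕ, 3 ≤ n →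
    (1 ≤ (n : ℤ) - Q (n - 1) ∧ (n : ℤ) - Q (n - 1) ≤ (n : ℤ) - 1) ∧
    (1 ≤ (n : ℤ) - Q (n - 2) ∧ (n : ℤ) - Q (n - 2) ≤ (n : ℤ) - 1) ∧
    Q n = Q ((n : ℤ) - Q (n - 1)).toNat + Q ((n : ℤ) - Q (n - 2)).toNat + (-1) ^ n

/-- The `k`-kernel of a sequence: all the subsequences `n ↦ a (k ^ e * n + j)` with
`0 ≤ j < k ^ e`. -/
def kernel (k : ℕ) (a : ℕ → ℤ) : Set (ℕ → ℤ) :=
  {b | ∃ e j : ℕ, j < k ^ e ∧ b = fun n => a (k ^ e * n + j)}

/-- An integer sequence is `k`-regular if the `ℤ`-module generated by its `k`-kernel is finitely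
generated. -/
def IsRegular (k : ℕ) (a : ℕ → ℤ) : Prop := (Submodule.span ℤ (kernel k a)).FG

/-! ### The two subsequences -/

/-- The recursion of the two subsequences, where it makes sense. -/
structure Pre (A B : ℤ → ℤ) : Prop where
  a1 : A 1 = 1
  b1 : B 1 = 1
  recA : ∀ m : ℤ, 1 ≤ m → 1 ≤ A m → A m ≤ m → 1 ≤ B m → B m ≤ m →
    A (m + 1) = B (m + 1 - B m) + B (m + 1 - A m) - 1
  recB : ∀ m : ℤ, 1 ≤ m → 1 ≤ A (m + 1) → A (m + 1) ≤ m + 1 → 1 ≤ B m → B m ≤ m →
    B (m + 1) = A (m + 2 - A (m + 1)) + A (m + 2 - B m)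

/-- The positive phase, on `[2 a - c, 4 a - c]`. -/
structure PosPhase (A B : ℤ → ℤ) (a c : ℤ) : Prop where
  uA : A (2 * a - c) = a
  uB : B (2 * a - c) = a
  u1A : A (2 * a - c + 1) = a
  u1B : B (2 * a - c + 1) = a + 1
  u2A : A (2 * a - c + 2) = a
  vA : A (4 * a - c) = 2 * a
  vB : B (4 * a - c) = 2 * a
  v1A : A (4 * a - c - 1) = 2 * a - 1
  v1B : B (4 * a - c - 1) = 2 * a
  v2B : B (4 * a - c - 2) = 2 * a
  sum : ∀ m : ℤ, 2 * a - c ≤ m → m ≤ 4 * a - c → A m + B m = m + c
  bd : ∀ m : ℤ, 2 * a - c ≤ m → m ≤ 4 * a - c → (a ≤ A m ∧ A m ≤ 2 * a) ∧ (a ≤ B m ∧ B m ≤ 2 * a)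
  step : ∀ m : ℤ, 2 * a - c ≤ m → m < 4 * a - c →
    (A (m + 1) = A m ∧ B (m + 1) = B m + 1) ∨ (A (m + 1) = A m + 1 ∧ B (m + 1) = B m)
  pos : ∀ m : ℤ, 2 * a - c < m → m < 4 * a - c → A m + 1 ≤ B m

/-- The negative phase, on `[4 a - c, 8 a - c - 3]`. -/
structure NegPhase (A B : ℤ → ℤ) (a c : ℤ) : Prop where
  uA : A (8 * a - c - 3) = 4 * a - 1
  uB : B (8 * a - c - 3) = 4 * a - 1
  sum : ∀ m : ℤ, 4 * a - c ≤ m → m < 8 * a - c - 3 →
    (A m + B m = m + c ∧ A (m + 1) = A m + 1) ∨ (A m + B m = m + c + 1 ∧ A (m + 1) = A m)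
  step : ∀ m : ℤ, 4 * a - c ≤ m → m < 8 * a - c - 3 → B (m + 1) = B m ∨ B (m + 1) = B m + 1
  neg : ∀ m : ℤ, 4 * a - c < m → m < 8 * a - c - 3 → B m + 1 ≤ A m
  legal : ∀ m : ℤ, 4 * a - c ≤ m → m < 8 * a - c - 3 → (1 ≤ A m ∧ A m ≤ m) ∧ (1 ≤ B m ∧ B m ≤ m)

/-- The invariant of the negative phase. -/
structure InvN (A B : ℤ → ℤ) (a c m : ℤ) : Prop where
  x : A m + B m = m + c ∨ (A m + B m = m + c + 1 ∧ A (m + 1 - B m + 1) = A (m + 1 - B m) + 1)
  d : B (m + 1 - A m) = A (m + 1 - B m) + 1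
  p1 : 2 * a - c + 1 ≤ m + 1 - A m
  p2 : m + 1 - A m ≤ 4 * a - c - 2
  q1 : m + 1 - B m ≤ 4 * a - c - 1
  ord : (m = 4 * a - c ∧ A m = B m) ∨ B m < A m

/-- One step in the negative phase. -/
lemma InvN.next {A B : ℤ → ℤ} (hp : Pre A B) {a c m : ℤ} (hc : 2 ≤ c) (hca : c < a)
    (P : PosPhase A B a c) (hm : 4 * a - c ≤ m) (h : InvN A B a c m) :
    (A m + B m = m + c ∧ A (m + 1) = A m + 1 ∧
      ((A (m + 1 - B m + 1) = A (m + 1 - B m) ∧ B (m + 1) = B m) ∨
       (A (m + 1 - B m + 1) = A (m + 1 - B m) + 1 ∧ B (m + 1) = B m + 1))) ∨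
    (A m + B m = m + c + 1 ∧ A (m + 1 - B m + 1) = A (m + 1 - B m) + 1 ∧ A (m + 1) = A m ∧
      ((A (m + 1 - A m + 1) = A (m + 1 - A m) + 1 ∧ B (m + 1 - A m + 1) = B (m + 1 - A m) ∧
          B (m + 1) = B m + 1) ∨
       (A (m + 1 - A m + 1) = A (m + 1 - A m) ∧ B (m + 1 - A m + 1) = B (m + 1 - A m) + 1 ∧
          B (m + 1) = B m))) := by
  obtain ⟨hx, hd, hp1, hp2, hq1, hord⟩ := h
  have hAB : B m ≤ A m := by rcases hord with ⟨_, h⟩ | h <;> omega
  have hB1 : 1 ≤ B m := by rcases hx with h | ⟨h, _⟩ <;> omega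
  have hA := hp.recA m (by omega) (by omega) (by omega) hB1 (by omega)
  have hsq := P.sum (m + 1 - B m) (by omega) (by omega)
  have hsp := P.sum (m + 1 - A m) (by omega) (by omega)
  have hstq := P.step (m + 1 - B m) (by omega) (by omega)
  have hstp := P.step (m + 1 - A m) (by omega) (by omega)
  have e1 : m + 2 - B m = m + 1 - B m + 1 := by ring
  rcases hx with hx | ⟨hx, hxq⟩
  · left
    have hA1 : A (m + 1) = A m + 1 := by omega
    have hB := hp.recB m (by omega) (by omega) (by omega) hB1 (by omega)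
    have e2 : m + 2 - A (m + 1) = m + 1 - A m := by rw [hA1]; ring
    rw [e1, e2] at hB
    refine ⟨hx, hA1, ?_⟩
    rcases hstq with ⟨h1, h2⟩ | ⟨h1, h2⟩
    · left; exact ⟨h1, by omega⟩
    · right; exact ⟨h1, by omega⟩
  · right
    have hA1 : A (m + 1) = A m := by omega
    have hB := hp.recB m (by omega) (by omega) (by omega) hB1 (by omega)
    have e2 : m + 2 - A (m + 1) = m + 1 - A m + 1 := by rw [hA1]; ring
    rw [e1, e2] at hB
    refine ⟨hx, hxq, hA1, ?_⟩
    rcases hstp with ⟨h1, h2⟩ | ⟨h1, h2⟩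
    · right; exact ⟨h1, h2, by omega⟩
    · left; exact ⟨h1, h2, by omega⟩

/-- The invariant is preserved. -/
lemma InvN.succ {A B : ℤ → ℤ} (hp : Pre A B) {a c m : ℤ} (hc : 2 ≤ c) (hca : c < a)
    (P : PosPhase A B a c) (hm : 4 * a - c ≤ m) (hm2 : m + 1 < 8 * a - c - 3)
    (h : InvN A B a c m) : InvN A B a c (m + 1) := by
  have hn := h.next hp hc hca P hm
  obtain ⟨hx, hd, hp1, hp2, hq1, hord⟩ := h
  have hAB : B m ≤ A m := by rcases hord with ⟨_, h⟩ | h <;> omega
  have hvA := P.vA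
  have hv1A := P.v1A
  have hu1A := P.u1A
  have hu2A := P.u2A
  rcases hn with ⟨hs, hA1, ⟨hq, hB1⟩ | ⟨hq, hB1⟩⟩ | ⟨hs, hxq, hA1, ⟨hpa, hpb, hB1⟩ | ⟨hpa, hpb, hB1⟩⟩
  · -- `x = 0`, `q` moves
    have e1 : m + 1 + 1 - A (m + 1) = m + 1 - A m := by omega
    have e2 : m + 1 + 1 - B (m + 1) = m + 1 - B m + 1 := by omega
    have hqv : m + 1 - B m ≠ 4 * a - c - 1 := by
      intro hh
      rw [hh] at hq
      have e3 : 4 * a - c - 1 + 1 = 4 * a - c := by ring
      rw [e3] at hq
      omega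
    constructor
    · left; omega
    · rw [e1, e2]; omega
    · omega
    · omega
    · omega
    · right; omega
  · -- `x = 0`, `q` stays
    have e1 : m + 1 + 1 - A (m + 1) = m + 1 - A m := by omega
    have e2 : m + 1 + 1 - B (m + 1) = m + 1 - B m := by omega
    have hne : A m ≠ B m := by
      intro hh
      rcases hord with ⟨h1, h2⟩ | h2
      · have h3 : m + 1 - B m = 2 * a - c + 1 := by
          have := P.vA
          rw [← h1] at this
          omega
        rw [h3] at hq
        have e3 : 2 * a - c + 1 + 1 = 2 * a - c + 2 := by ring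
        rw [e3] at hq
        omega
      · omega
    constructor
    · right
      rw [e2]
      constructor
      · omega
      · exact hq
    · rw [e1, e2]; exact hd
    · omega
    · omega
    · omega
    · right; omega
  · -- `x = 1`, `q` stays, `p` moves
    have e1 : m + 1 + 1 - A (m + 1) = m + 1 - A m + 1 := by omega
    have e2 : m + 1 + 1 - B (m + 1) = m + 1 - B m := by omega
    have hmv : m ≠ 4 * a - c := by
      intro hh
      rw [hh] at hs
      have := P.vB
      omega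
    have hlt : B m < A m := by
      rcases hord with ⟨h1, h2⟩ | h2
      · exact absurd h1 hmv
      · exact h2
    have hpq : m + 1 - A m + 1 < m + 1 - B m := by
      by_contra hcon
      have h3 : m + 1 - B m = m + 1 - A m + 1 := by omega
      -- `q = p + 1`
      have h4 := P.step (m + 1 - B m) (by omega) (by omega)
      have h5 : B (m + 1 - B m) = A (m + 1 - B m) + 1 := by
        rw [h3, hpb, ← h3]
        exact hd
      rcases h4 with ⟨h6, h7⟩ | ⟨h6, h7⟩
      · omega
      · have h8 := P.pos (m + 1 - B m + 1) (by omega) (by omega)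
        omega
    constructor
    · right
      rw [e2]
      constructor
      · omega
      · exact hxq
    · rw [e1, e2, hpb]; exact hd
    · omega
    · omega
    · omega
    · right; omega
  · -- `x = 1`, both move
    have e1 : m + 1 + 1 - A (m + 1) = m + 1 - A m + 1 := by omega
    have e2 : m + 1 + 1 - B (m + 1) = m + 1 - B m + 1 := by omega
    have hmv : m ≠ 4 * a - c := by
      intro hh
      rw [hh] at hs
      have := P.vB
      omega
    have hlt : B m < A m := by
      rcases hord with ⟨h1, h2⟩ | h2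
      · exact absurd h1 hmv
      · exact h2
    have hqv : m + 1 - B m ≠ 4 * a - c - 1 := by
      intro hh
      rw [hh] at hd
      have h3 := P.bd (m + 1 - A m + 1) (by omega) (by omega)
      omega
    constructor
    · left; omega
    · rw [e1, e2]; omega
    · omega
    · omega
    · omega
    · right; omega

lemma InvN.start {A B : ℤ → ℤ} {a c : ℤ} (ha : 3 ≤ a)
    (P : PosPhase A B a c) : InvN A B a c (4 * a - c) := by
  have hvA := P.vA
  have hvB := P.vB
  have hu1A := P.u1A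
  have hu1B := P.u1B
  have e1 : 4 * a - c + 1 - A (4 * a - c) = 2 * a - c + 1 := by rw [hvA]; ring
  have e2 : 4 * a - c + 1 - B (4 * a - c) = 2 * a - c + 1 := by rw [hvB]; ring
  constructor
  · left; omega
  · rw [e1, e2]; omega
  · omega
  · omega
  · omega
  · left; exact ⟨rfl, by omega⟩

lemma InvN.all {A B : ℤ → ℤ} (hp : Pre A B) {a c : ℤ} (ha : 3 ≤ a) (hc : 2 ≤ c) (hca : c < a)
    (P : PosPhase A B a c) (m : ℤ) (hm : 4 * a - c ≤ m) (hm2 : m < 8 * a - c - 3) :
    InvN A B a c m := by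
  have key : ∀ k : ℕ, 4 * a - c + k < 8 * a - c - 3 → InvN A B a c (4 * a - c + k) := by
    intro k
    induction k with
    | zero => intro _; simpa using InvN.start ha P
    | succ k ih =>
      intro hk
      push_cast at hk ⊢
      have h1 := ih (by omega)
      have h2 := h1.succ hp hc hca P (by omega) (by omega)
      have e : 4 * a - c + ((k : ℤ) + 1) = 4 * a - c + k + 1 := by ring
      rw [e]
      exact h2
  have := key (m - (4 * a - c)).toNat (by omega)
  have e : 4 * a - c + (((m - (4 * a - c)).toNat : ℕ) : ℤ) = m := by omega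
  rwa [e] at this

/-- The negative phase follows the positive one. -/
lemma PosPhase.neg {A B : ℤ → ℤ} (hp : Pre A B) {a c : ℤ} (ha : 3 ≤ a) (hc : 2 ≤ c) (hca : c < a)
    (P : PosPhase A B a c) : NegPhase A B a c := by
  -- the last index of the phase
  have hlast := InvN.all hp ha hc hca P (8 * a - c - 4) (by omega) (by omega)
  have hn := hlast.next hp hc hca P (by omega)
  obtain ⟨hx, hd, hp1, hp2, hq1, hord⟩ := hlast
  have hA : A (8 * a - c - 4) = 4 * a - 1 := by rcases hx with h | ⟨h, _⟩ <;> omega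
  have hB : B (8 * a - c - 4) = 4 * a - 2 := by rcases hx with h | ⟨h, _⟩ <;> omega
  have e1 : 8 * a - c - 4 + 1 = 8 * a - c - 3 := by ring
  have e2 : 8 * a - c - 4 + 1 - A (8 * a - c - 4) = 4 * a - c - 2 := by omega
  have e3 : 8 * a - c - 4 + 1 - B (8 * a - c - 4) = 4 * a - c - 1 := by omega
  rw [e2, e3] at hn
  rw [e1] at hn
  have hvA := P.vA
  have hv1A := P.v1A
  have hvB := P.vB
  have hv1B := P.v1B
  have hv2B := P.v2B
  have e5 : 4 * a - c - 2 + 1 = 4 * a - c - 1 := by ring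
  have e6 : 4 * a - c - 1 + 1 = 4 * a - c := by ring
  rw [e5, e6] at hn
  have hAu : A (8 * a - c - 3) = 4 * a - 1 := by omega
  have hBu : B (8 * a - c - 3) = 4 * a - 1 := by omega
  refine ⟨hAu, hBu, ?_, ?_, ?_, ?_⟩
  · intro m hm hm2
    have h := (InvN.all hp ha hc hca P m hm hm2).next hp hc hca P hm
    rcases h with ⟨h1, h2, _⟩ | ⟨h1, _, h2, _⟩
    · left; exact ⟨h1, h2⟩
    · right; exact ⟨h1, h2⟩
  · intro m hm hm2
    have h := (InvN.all hp ha hc hca P m hm hm2).next hp hc hca P hm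
    rcases h with ⟨_, _, ⟨_, h⟩ | ⟨_, h⟩⟩ | ⟨_, _, _, ⟨_, _, h⟩ | ⟨_, _, h⟩⟩
    · left; exact h
    · right; exact h
    · right; exact h
    · left; exact h
  · intro m hm hm2
    have h := (InvN.all hp ha hc hca P m hm.le hm2).ord
    omega
  · intro m hm hm2
    obtain ⟨g1, g2, g3, g4, g5, g6⟩ := InvN.all hp ha hc hca P m hm hm2
    have hAB : B m ≤ A m := by rcases g6 with ⟨_, h⟩ | h <;> omega
    omega

/-! ### The positive phase -/

/-- The invariant of the positive phase. -/
structure InvP (A B : ℤ → ℤ) (a c m : ℤ) : Prop where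
  x : A m + B m = m + c + 1
  e : B (m + 1 - A m) = A (m + 1 - B m + 1) ∨
    (B (m + 1 - A m) = A (m + 1 - B m + 1) + 1 ∧
      A (m + 1 - A m) + B (m + 1 - A m) = m + 1 - A m + c + 1)
  q1 : 4 * a - c - 1 ≤ m + 1 - B m
  q2 : m + 1 - B m ≤ 8 * a - c - 3
  p2 : m + 1 - A m ≤ 8 * a - c - 2
  ord : (m = 8 * a - c - 3 ∧ A m = B m) ∨ A m < B m

/-- What is used about the region before the positive phase. -/
structure Region (A B : ℤ → ℤ) (a c : ℤ) : Prop where
  uA : A (8 * a - c - 3) = 4 * a - 1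
  uB : B (8 * a - c - 3) = 4 * a - 1
  u1A : A (8 * a - c - 2) = 4 * a - 1
  u1B : B (8 * a - c - 2) = 4 * a
  u2A : A (8 * a - c - 1) = 4 * a - 1
  v1B : B (4 * a - c - 1) = 2 * a
  vA : A (4 * a - c) = 2 * a
  sum : ∀ y : ℤ, 4 * a - c - 1 ≤ y → y ≤ 8 * a - c - 3 → B y + A (y + 1) = y + c + 1
  stA : ∀ y : ℤ, 4 * a - c - 1 ≤ y → y ≤ 8 * a - c - 3 → A (y + 1) = A y ∨ A (y + 1) = A y + 1
  stB : ∀ y : ℤ, 4 * a - c - 1 ≤ y → y ≤ 8 * a - c - 3 → B (y + 1) = B y ∨ B (y + 1) = B y + 1
  bd : ∀ y : ℤ, 4 * a - c - 1 ≤ y → y ≤ 8 * a - c - 2 → A y ≤ 4 * a - 1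
  neg : ∀ y : ℤ, 4 * a - c - 1 < y → y ≤ 8 * a - c - 3 → B y ≤ A y

lemma region_of {A B : ℤ → ℤ} (hp : Pre A B) {a c : ℤ} (ha : 3 ≤ a) (hc : 2 ≤ c) (hca : c < a)
    (P : PosPhase A B a c) (N : NegPhase A B a c) : Region A B a c := by
  have huA := N.uA
  have huB := N.uB
  have hvA := P.vA
  have hvB := P.vB
  have hv1A := P.v1A
  have hv1B := P.v1B
  have r1 := hp.recA (8 * a - c - 3) (by omega) (by omega) (by omega) (by omega) (by omega)
  have e1 : 8 * a - c - 3 + 1 - B (8 * a - c - 3) = 4 * a - c - 1 := by omega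
  have e2 : 8 * a - c - 3 + 1 - A (8 * a - c - 3) = 4 * a - c - 1 := by omega
  have e3 : 8 * a - c - 3 + 1 = 8 * a - c - 2 := by ring
  rw [e1, e2, e3] at r1
  have u1A : A (8 * a - c - 2) = 4 * a - 1 := by omega
  have r2 := hp.recB (8 * a - c - 3) (by omega) (by rw [e3]; omega) (by rw [e3]; omega)
    (by omega) (by omega)
  rw [e3] at r2
  have e4 : 8 * a - c - 3 + 2 - A (8 * a - c - 2) = 4 * a - c := by omega
  have e5 : 8 * a - c - 3 + 2 - B (8 * a - c - 3) = 4 * a - c := by omega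
  rw [e4, e5] at r2
  have u1B : B (8 * a - c - 2) = 4 * a := by omega
  have r3 := hp.recA (8 * a - c - 2) (by omega) (by omega) (by omega) (by omega) (by omega)
  have e6 : 8 * a - c - 2 + 1 - B (8 * a - c - 2) = 4 * a - c - 1 := by omega
  have e7 : 8 * a - c - 2 + 1 - A (8 * a - c - 2) = 4 * a - c := by omega
  have e8 : 8 * a - c - 2 + 1 = 8 * a - c - 1 := by ring
  rw [e6, e7, e8] at r3
  have u2A : A (8 * a - c - 1) = 4 * a - 1 := by omega
  have hsum : ∀ y : ℤ, 4 * a - c - 1 ≤ y → y ≤ 8 * a - c - 3 →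
      B y + A (y + 1) = y + c + 1 ∧ (A (y + 1) = A y ∨ A (y + 1) = A y + 1) ∧
        (B (y + 1) = B y ∨ B (y + 1) = B y + 1) := by
    intro y hy1 hy2
    rcases lt_or_ge y (4 * a - c) with h | h
    · have hy : y = 4 * a - c - 1 := by omega
      have e9 : y + 1 = 4 * a - c := by omega
      rw [e9, hy]
      omega
    · rcases lt_or_ge y (8 * a - c - 3) with h2 | h2
      · have h3 := N.sum y h h2
        have h4 := N.step y h h2
        omega
      · have hy : y = 8 * a - c - 3 := by omega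
        have e9 : y + 1 = 8 * a - c - 2 := by omega
        rw [e9, hy]
        omega
  have hbd : ∀ k : ℕ, 4 * a - c - 1 ≤ 8 * a - c - 2 - k → A (8 * a - c - 2 - k) ≤ 4 * a - 1 := by
    intro k
    induction k with
    | zero => intro _; simp only [Nat.cast_zero, sub_zero]; omega
    | succ k ih =>
      intro hk
      push_cast at hk ⊢
      have h1 := ih (by omega)
      have h2 := (hsum (8 * a - c - 2 - ((k : ℤ) + 1)) (by omega) (by omega)).2.1
      have e9 : 8 * a - c - 2 - ((k : ℤ) + 1) + 1 = 8 * a - c - 2 - k := by ring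
      rw [e9] at h2
      omega
  refine ⟨huA, huB, u1A, u1B, u2A, hv1B, hvA, fun y h1 h2 => (hsum y h1 h2).1,
    fun y h1 h2 => (hsum y h1 h2).2.1, fun y h1 h2 => (hsum y h1 h2).2.2, ?_, ?_⟩
  · intro y h1 h2
    have := hbd (8 * a - c - 2 - y).toNat (by omega)
    have e9 : 8 * a - c - 2 - (((8 * a - c - 2 - y).toNat : ℕ) : ℤ) = y := by omega
    rwa [e9] at this
  · intro y h1 h2
    rcases lt_or_ge (4 * a - c) y with h | h
    · rcases lt_or_ge y (8 * a - c - 3) with h3 | h3
      · have := N.neg y h h3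
        omega
      · have hy : y = 8 * a - c - 3 := by omega
        rw [hy]
        omega
    · have hy : y = 4 * a - c := by omega
      rw [hy]
      omega

/-- One step in the positive phase. -/
lemma InvP.next {A B : ℤ → ℤ} (hp : Pre A B) {a c m : ℤ} (hc : 2 ≤ c)
    (hca : c < a) (R : Region A B a c) (hm : 8 * a - c - 3 ≤ m) (h : InvP A B a c m) :
    (B (m + 1 - A m) = A (m + 1 - B m + 1) ∧ A (m + 1) = A m ∧ B (m + 1) = B m + 1 ∧
      m + 1 - A m ≤ 8 * a - c - 3) ∨
    (B (m + 1 - A m) = A (m + 1 - B m + 1) + 1 ∧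
      A (m + 1 - A m) + B (m + 1 - A m) = m + 1 - A m + c + 1 ∧
      A (m + 1) = A m + 1 ∧ B (m + 1) = B m) := by
  obtain ⟨hx, he, hq1, hq2, hp2, hord⟩ := h
  have hAB : A m ≤ B m := by rcases hord with ⟨_, h⟩ | h <;> omega
  have hA := hp.recA m (by omega) (by omega) (by omega) (by omega) (by omega)
  have hsq := R.sum (m + 1 - B m) hq1 hq2
  have hbq := R.bd (m + 1 - B m + 1) (by omega) (by omega)
  have hu1B := R.u1B
  have e1 : m + 2 - B m = m + 1 - B m + 1 := by ring
  rcases he with he | ⟨he, hep⟩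
  · left
    have hpu : m + 1 - A m ≤ 8 * a - c - 3 := by
      by_contra hcon
      have h1 : m + 1 - A m = 8 * a - c - 2 := by omega
      rw [h1] at he
      omega
    have hsp := R.sum (m + 1 - A m) (by omega) hpu
    have hA1 : A (m + 1) = A m := by omega
    have hB := hp.recB m (by omega) (by omega) (by omega) (by omega) (by omega)
    have e2 : m + 2 - A (m + 1) = m + 1 - A m + 1 := by rw [hA1]; ring
    rw [e1, e2] at hB
    exact ⟨he, hA1, by omega, hpu⟩
  · right
    have hA1 : A (m + 1) = A m + 1 := by omega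
    have hB := hp.recB m (by omega) (by omega) (by omega) (by omega) (by omega)
    have e2 : m + 2 - A (m + 1) = m + 1 - A m := by rw [hA1]; ring
    rw [e1, e2] at hB
    exact ⟨he, hep, hA1, by omega⟩

lemma InvP.succ {A B : ℤ → ℤ} (hp : Pre A B) {a c m : ℤ} (ha : 3 ≤ a) (hc : 2 ≤ c)
    (hca : c < a) (R : Region A B a c) (hm : 8 * a - c - 3 ≤ m) (hm2 : m + 1 < 16 * a - c - 5)
    (h : InvP A B a c m) : InvP A B a c (m + 1) := by
  have hn := h.next hp hc hca R hm
  obtain ⟨hx, he, hq1, hq2, hp2, hord⟩ := h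
  have hAB : A m ≤ B m := by rcases hord with ⟨_, h⟩ | h <;> omega
  have huA := R.uA
  have huB := R.uB
  rcases hn with ⟨h1, hA1, hB1, hpu⟩ | ⟨h1, h2, hA1, hB1⟩
  · have e1 : m + 1 + 1 - A (m + 1) = m + 1 - A m + 1 := by omega
    have e2 : m + 1 + 1 - B (m + 1) = m + 1 - B m := by omega
    have hsp := R.sum (m + 1 - A m) (by omega) hpu
    have hst := R.stB (m + 1 - A m) (by omega) hpu
    constructor
    · omega
    · rw [e1, e2]
      rcases hst with h3 | h3
      · left; omega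
      · right
        constructor <;> omega
    · omega
    · omega
    · omega
    · right; omega
  · have e1 : m + 1 + 1 - A (m + 1) = m + 1 - A m := by omega
    have e2 : m + 1 + 1 - B (m + 1) = m + 1 - B m + 1 := by omega
    have hmu : m ≠ 8 * a - c - 3 := by
      intro hh
      have h3 : m + 1 - A m = 4 * a - c - 1 := by rw [hh, huA]; ring
      have h4 : m + 1 - B m + 1 = 4 * a - c := by rw [hh, huB]; ring
      rw [h3, h4, R.v1B, R.vA] at h1
      omega
    have hlt : A m < B m := by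
      rcases hord with ⟨h3, _⟩ | h3
      · exact absurd h3 hmu
      · exact h3
    have hpq : m + 1 - B m + 1 < m + 1 - A m := by
      by_contra hcon
      have h3 : m + 1 - A m = m + 1 - B m + 1 := by omega
      rw [← h3] at h1
      rcases lt_or_ge (8 * a - c - 3) (m + 1 - A m) with h4 | h4
      · omega
      · have h5 := R.neg (m + 1 - A m) (by omega) h4
        omega
    have hst := R.stA (m + 1 - B m + 1) (by omega) (by omega)
    constructor
    · omega
    · rw [e1, e2]
      rcases hst with h3 | h3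
      · right
        constructor <;> omega
      · left; omega
    · omega
    · omega
    · omega
    · right; omega

lemma InvP.start {A B : ℤ → ℤ} {a c : ℤ} (ha : 3 ≤ a)
    (R : Region A B a c) : InvP A B a c (8 * a - c - 3) := by
  have huA := R.uA
  have huB := R.uB
  have e1 : 8 * a - c - 3 + 1 - A (8 * a - c - 3) = 4 * a - c - 1 := by omega
  have e2 : 8 * a - c - 3 + 1 - B (8 * a - c - 3) = 4 * a - c - 1 := by omega
  constructor
  · omega
  · left
    rw [e1, e2]
    have e3 : 4 * a - c - 1 + 1 = 4 * a - c := by ring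
    rw [e3, R.v1B, R.vA]
  · omega
  · omega
  · omega
  · left; exact ⟨rfl, by omega⟩

lemma InvP.all {A B : ℤ → ℤ} (hp : Pre A B) {a c : ℤ} (ha : 3 ≤ a) (hc : 2 ≤ c)
    (hca : c < a) (R : Region A B a c) (m : ℤ) (hm : 8 * a - c - 3 ≤ m) (hm2 : m < 16 * a - c - 5) :
    InvP A B a c m := by
  have key : ∀ k : ℕ, 8 * a - c - 3 + k < 16 * a - c - 5 → InvP A B a c (8 * a - c - 3 + k) := by
    intro k
    induction k with
    | zero => intro _; simpa using InvP.start ha R
    | succ k ih =>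
      intro hk
      push_cast at hk ⊢
      have h1 := ih (by omega)
      have h2 := h1.succ hp ha hc hca R (by omega) (by omega)
      have e : 8 * a - c - 3 + ((k : ℤ) + 1) = 8 * a - c - 3 + k + 1 := by ring
      rw [e]
      exact h2
  have := key (m - (8 * a - c - 3)).toNat (by omega)
  have e : 8 * a - c - 3 + (((m - (8 * a - c - 3)).toNat : ℕ) : ℤ) = m := by omega
  rwa [e] at this

/-- The next positive phase. -/
lemma pos_of {A B : ℤ → ℤ} (hp : Pre A B) {a c : ℤ} (ha : 3 ≤ a) (hc : 2 ≤ c) (hca : c < a)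
    (P : PosPhase A B a c) (N : NegPhase A B a c) : PosPhase A B (4 * a - 1) (c + 1) := by
  have R := region_of hp ha hc hca P N
  have e0 : 2 * (4 * a - 1) - (c + 1) = 8 * a - c - 3 := by ring
  have e1 : 4 * (4 * a - 1) - (c + 1) = 16 * a - c - 5 := by ring
  have hu1B := R.u1B
  have hu1A := R.u1A
  -- the last index
  have hl := InvP.all hp ha hc hca R (16 * a - c - 6) (by omega) (by omega)
  have hln := hl.next hp hc hca R (by omega)
  have hl2 := InvP.all hp ha hc hca R (16 * a - c - 7) (by omega) (by omega)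
  have hA : A (16 * a - c - 6) = 8 * a - 3 := by
    have := hl.x; have := hl.q2; have := hl.p2; omega
  have hB : B (16 * a - c - 6) = 8 * a - 2 := by
    have := hl.x; have := hl.q2; have := hl.p2; omega
  have hB2 : B (16 * a - c - 7) = 8 * a - 2 := by
    have := hl2.x; have := hl2.q2; have := hl2.p2; have := hl2.ord; omega
  have e2 : 16 * a - c - 6 + 1 - A (16 * a - c - 6) = 8 * a - c - 2 := by omega
  have e3 : 16 * a - c - 6 + 1 - B (16 * a - c - 6) + 1 = 8 * a - c - 2 := by omega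
  have e4 : 16 * a - c - 6 + 1 = 16 * a - c - 5 := by ring
  rw [e2, e3, e4] at hln
  have hAv : A (16 * a - c - 5) = 8 * a - 2 := by omega
  have hBv : B (16 * a - c - 5) = 8 * a - 2 := by omega
  constructor
  · rw [e0]; exact R.uA
  · rw [e0]; exact R.uB
  · rw [e0, show 8 * a - c - 3 + 1 = 8 * a - c - 2 by ring]; exact R.u1A
  · rw [e0, show 8 * a - c - 3 + 1 = 8 * a - c - 2 by ring, R.u1B]; ring
  · rw [e0, show 8 * a - c - 3 + 2 = 8 * a - c - 1 by ring]; exact R.u2A
  · rw [e1, hAv]; ring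
  · rw [e1, hBv]; ring
  · rw [e1, show 16 * a - c - 5 - 1 = 16 * a - c - 6 by ring, hA]; ring
  · rw [e1, show 16 * a - c - 5 - 1 = 16 * a - c - 6 by ring, hB]; ring
  · rw [e1, show 16 * a - c - 5 - 2 = 16 * a - c - 7 by ring, hB2]; ring
  · intro m h1 h2
    rw [e0] at h1
    rw [e1] at h2
    rcases lt_or_ge m (16 * a - c - 5) with h3 | h3
    · have := (InvP.all hp ha hc hca R m h1 h3).x
      omega
    · have h4 : m = 16 * a - c - 5 := by omega
      rw [h4]
      omega
  · intro m h1 h2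
    rw [e0] at h1
    rw [e1] at h2
    rcases lt_or_ge m (16 * a - c - 5) with h3 | h3
    · obtain ⟨g1, g2, g3, g4, g5, g6⟩ := InvP.all hp ha hc hca R m h1 h3
      have hAB : A m ≤ B m := by rcases g6 with ⟨_, h⟩ | h <;> omega
      omega
    · have h4 : m = 16 * a - c - 5 := by omega
      rw [h4]
      omega
  · intro m h1 h2
    rw [e0] at h1
    rw [e1] at h2
    have := (InvP.all hp ha hc hca R m h1 h2).next hp hc hca R h1
    omega
  · intro m h1 h2
    rw [e0] at h1
    rw [e1] at h2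
    have := (InvP.all hp ha hc hca R m h1.le h2).ord
    omega

/-! ### All the phases -/

lemma base {A B : ℤ → ℤ} (hp : Pre A B) : PosPhase A B 3 2 ∧
    (∀ m : ℤ, 1 ≤ m → m ≤ 4 → (1 ≤ A m ∧ A m ≤ m) ∧ (1 ≤ B m ∧ B m ≤ m)) := by
  have a1 := hp.a1
  have b1 := hp.b1
  have a2 : A 2 = 1 := by
    have h := hp.recA 1 (by norm_num) (by omega) (by omega) (by omega) (by omega)
    rw [a1, b1] at h; norm_num at h; omega
  have b2 : B 2 = 2 := by
    have h := hp.recB 1 (by norm_num) (by norm_num; omega) (by norm_num; omega) (by omega) (by omega)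
    norm_num at h; rw [a2, b1] at h; norm_num at h; omega
  have a3 : A 3 = 2 := by
    have h := hp.recA 2 (by norm_num) (by omega) (by omega) (by omega) (by omega)
    rw [a2, b2] at h; norm_num at h; omega
  have b3 : B 3 = 2 := by
    have h := hp.recB 2 (by norm_num) (by norm_num; omega) (by norm_num; omega) (by omega) (by omega)
    norm_num at h; rw [a3, b2] at h; norm_num at h; omega
  have a4 : A 4 = 3 := by
    have h := hp.recA 3 (by norm_num) (by omega) (by omega) (by omega) (by omega)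
    rw [a3, b3] at h; norm_num at h; omega
  have b4 : B 4 = 3 := by
    have h := hp.recB 3 (by norm_num) (by norm_num; omega) (by norm_num; omega) (by omega) (by omega)
    norm_num at h; rw [a4, b3] at h; norm_num at h; omega
  have a5 : A 5 = 3 := by
    have h := hp.recA 4 (by norm_num) (by omega) (by omega) (by omega) (by omega)
    rw [a4, b4] at h; norm_num at h; omega
  have b5 : B 5 = 4 := by
    have h := hp.recB 4 (by norm_num) (by norm_num; omega) (by norm_num; omega) (by omega) (by omega)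
    norm_num at h; rw [a5, b4] at h; norm_num at h; omega
  have a6 : A 6 = 3 := by
    have h := hp.recA 5 (by norm_num) (by omega) (by omega) (by omega) (by omega)
    rw [a5, b5] at h; norm_num at h; omega
  have b6 : B 6 = 5 := by
    have h := hp.recB 5 (by norm_num) (by norm_num; omega) (by norm_num; omega) (by omega) (by omega)
    norm_num at h; rw [a6, b5] at h; norm_num at h; omega
  have a7 : A 7 = 4 := by
    have h := hp.recA 6 (by norm_num) (by omega) (by omega) (by omega) (by omega)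
    rw [a6, b6] at h; norm_num at h; omega
  have b7 : B 7 = 5 := by
    have h := hp.recB 6 (by norm_num) (by norm_num; omega) (by norm_num; omega) (by omega) (by omega)
    norm_num at h; rw [a7, b6] at h; norm_num at h; omega
  have a8 : A 8 = 4 := by
    have h := hp.recA 7 (by norm_num) (by omega) (by omega) (by omega) (by omega)
    rw [a7, b7] at h; norm_num at h; omega
  have b8 : B 8 = 6 := by
    have h := hp.recB 7 (by norm_num) (by norm_num; omega) (by norm_num; omega) (by omega) (by omega)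
    norm_num at h; rw [a8, b7] at h; norm_num at h; omega
  have a9 : A 9 = 5 := by
    have h := hp.recA 8 (by norm_num) (by omega) (by omega) (by omega) (by omega)
    rw [a8, b8] at h; norm_num at h; omega
  have b9 : B 9 = 6 := by
    have h := hp.recB 8 (by norm_num) (by norm_num; omega) (by norm_num; omega) (by omega) (by omega)
    norm_num at h; rw [a9, b8] at h; norm_num at h; omega
  have a10 : A 10 = 6 := by
    have h := hp.recA 9 (by norm_num) (by omega) (by omega) (by omega) (by omega)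
    rw [a9, b9] at h; norm_num at h; omega
  have b10 : B 10 = 6 := by
    have h := hp.recB 9 (by norm_num) (by norm_num; omega) (by norm_num; omega) (by omega) (by omega)
    norm_num at h; rw [a10, b9] at h; norm_num at h; omega
  constructor
  · constructor
    · norm_num; exact a4
    · norm_num; exact b4
    · norm_num; exact a5
    · norm_num; exact b5
    · norm_num; exact a6
    · norm_num; exact a10
    · norm_num; exact b10
    · norm_num; exact a9
    · norm_num; exact b9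
    · norm_num; exact b8
    · intro m h1 h2
      norm_num at h1 h2
      interval_cases m <;> omega
    · intro m h1 h2
      norm_num at h1 h2
      interval_cases m <;> omega
    · intro m h1 h2
      norm_num at h1 h2
      interval_cases m <;> norm_num <;> omega
    · intro m h1 h2
      norm_num at h1 h2
      interval_cases m <;> omega
  · intro m h1 h2
    interval_cases m <;> omega

/-- The numbers `a_r`. -/
def aa : ℕ → ℤ
  | 0 => 3
  | (r + 1) => 4 * aa r - 1

lemma aa_ge (r : ℕ) : (r : ℤ) + 3 ≤ aa r := by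
  induction r with
  | zero => simp [aa]
  | succ r ih => simp only [aa]; push_cast; omega

lemma phases {A B : ℤ → ℤ} (hp : Pre A B) (r : ℕ) :
    PosPhase A B (aa r) (r + 2) ∧ NegPhase A B (aa r) (r + 2) := by
  induction r with
  | zero =>
    have h := (base hp).1
    simp only [aa, Nat.cast_zero, zero_add]
    exact ⟨h, h.neg hp (by norm_num) (by norm_num) (by norm_num)⟩
  | succ r ih =>
    obtain ⟨h1, h2⟩ := ih
    have h3 := aa_ge r
    have h4 := pos_of hp (by omega) (by omega) (by omega) h1 h2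
    have e : ((r + 1 : ℕ) : ℤ) + 2 = (r : ℤ) + 2 + 1 := by push_cast; ring
    have e' : aa (r + 1) = 4 * aa r - 1 := rfl
    rw [e, e']
    exact ⟨h4, h4.neg hp (by omega) (by omega) (by omega)⟩

lemma legal_all {A B : ℤ → ℤ} (hp : Pre A B) (m : ℤ) (hm : 1 ≤ m) :
    (1 ≤ A m ∧ A m ≤ m) ∧ (1 ≤ B m ∧ B m ≤ m) := by
  have key : ∀ r : ℕ, ∀ m : ℤ, 1 ≤ m → m ≤ 2 * aa r - (r + 2) →
      (1 ≤ A m ∧ A m ≤ m) ∧ (1 ≤ B m ∧ B m ≤ m) := by
    intro r
    induction r with
    | zero =>
      intro m h1 h2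
      simp only [aa, Nat.cast_zero] at h2
      exact (base hp).2 m h1 (by omega)
    | succ r ih =>
      intro m h1 h2
      obtain ⟨g1, g2⟩ := phases hp r
      have h3 := aa_ge r
      rcases lt_or_ge (2 * aa r - (r + 2)) m with h4 | h4
      · rcases lt_or_ge m (4 * aa r - (r + 2)) with h5 | h5
        · have h6 := g1.sum m h4.le h5.le
          have h7 := g1.bd m h4.le h5.le
          omega
        · rcases lt_or_ge m (8 * aa r - (r + 2) - 3) with h6 | h6
          · exact g2.legal m h5 h6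
          · simp only [aa] at h2
            push_cast at h2
            have h7 : m = 8 * aa r - (r + 2) - 3 := by omega
            have h8 := g2.uA
            have h9 := g2.uB
            rw [h7]
            omega
      · exact ih m h1 h4
  have h1 := aa_ge m.toNat
  exact key m.toNat m hm (by omega)

/-! ### From the sequence to the two subsequences -/

/-- The sign `(-1)^n` for an integer `n`. -/
def sg (n : ℤ) : ℤ := if n % 2 = 0 then 1 else -1

lemma sg_natCast (n : ℕ) : sg (n : ℤ) = (-1) ^ n := by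
  unfold sg
  rcases Nat.even_or_odd n with h | h
  · rw [h.neg_one_pow, if_pos]
    obtain ⟨m, rfl⟩ := h
    push_cast
    omega
  · rw [h.neg_one_pow, if_neg]
    obtain ⟨m, rfl⟩ := h
    push_cast
    omega

/-- The recursion for a function on the integers, where it makes sense. -/
structure PreG (G : ℤ → ℤ) : Prop where
  g1 : G 1 = 1
  g2 : G 2 = 1
  odd : ∀ n : ℤ, 1 ≤ n → G n % 2 = 1
  recu : ∀ n : ℤ, 3 ≤ n → 1 ≤ G (n - 1) → G (n - 1) ≤ n - 1 → 1 ≤ G (n - 2) → G (n - 2) ≤ n - 1 →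
    G n = G (n - G (n - 1)) + G (n - G (n - 2)) + sg n

lemma PreG.pre {G : ℤ → ℤ} (h : PreG G) :
    Pre (fun m => (G (2 * m - 1) + 1) / 2) (fun m => (G (2 * m) + 1) / 2) := by
  have hA : ∀ m : ℤ, 1 ≤ m → G (2 * m - 1) = 2 * ((G (2 * m - 1) + 1) / 2) - 1 := by
    intro m hm
    have := h.odd (2 * m - 1) (by omega)
    omega
  have hB : ∀ m : ℤ, 1 ≤ m → G (2 * m) = 2 * ((G (2 * m) + 1) / 2) - 1 := by
    intro m hm
    have := h.odd (2 * m) (by omega)
    omega
  have g1 := h.g1
  have g2 := h.g2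
  constructor
  · norm_num [g1]
  · norm_num [g2]
  · intro m hm a1 a2 b1 b2
    set x := (G (2 * m - 1) + 1) / 2 with hx
    set y := (G (2 * m) + 1) / 2 with hy
    have h1 := hA m hm
    have h2 := hB m hm
    rw [← hx] at h1
    rw [← hy] at h2
    have e1 : 2 * m + 1 - 1 = 2 * m := by ring
    have e2 : 2 * m + 1 - 2 = 2 * m - 1 := by ring
    have h3 := h.recu (2 * m + 1) (by omega) (by rw [e1]; omega) (by rw [e1]; omega)
      (by rw [e2]; omega) (by rw [e2]; omega)
    rw [e1, e2, h1, h2] at h3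
    have e3 : 2 * m + 1 - (2 * y - 1) = 2 * (m + 1 - y) := by ring
    have e4 : 2 * m + 1 - (2 * x - 1) = 2 * (m + 1 - x) := by ring
    have e5 : sg (2 * m + 1) = -1 := by unfold sg; rw [if_neg]; omega
    rw [e3, e4, e5] at h3
    have h4 := hB (m + 1 - y) (by omega)
    have h5 := hB (m + 1 - x) (by omega)
    have h6 := hA (m + 1) (by omega)
    have e6 : 2 * (m + 1) - 1 = 2 * m + 1 := by ring
    rw [e6] at h6
    show (G (2 * (m + 1) - 1) + 1) / 2 = (G (2 * (m + 1 - y)) + 1) / 2 +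
      (G (2 * (m + 1 - x)) + 1) / 2 - 1
    rw [e6]
    omega
  · intro m hm a1 a2 b1 b2
    set x := (G (2 * (m + 1) - 1) + 1) / 2 with hx
    set y := (G (2 * m) + 1) / 2 with hy
    have h1 := hA (m + 1) (by omega)
    have h2 := hB m hm
    rw [← hx] at h1
    rw [← hy] at h2
    have e1 : 2 * m + 2 - 1 = 2 * (m + 1) - 1 := by ring
    have e2 : 2 * m + 2 - 2 = 2 * m := by ring
    have h3 := h.recu (2 * m + 2) (by omega) (by rw [e1]; omega) (by rw [e1]; omega)
      (by rw [e2]; omega) (by rw [e2]; omega)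
    rw [e1, e2, h1, h2] at h3
    have e3 : 2 * m + 2 - (2 * y - 1) = 2 * (m + 2 - y) - 1 := by ring
    have e4 : 2 * m + 2 - (2 * x - 1) = 2 * (m + 2 - x) - 1 := by ring
    have e5 : sg (2 * m + 2) = 1 := by unfold sg; rw [if_pos]; omega
    rw [e3, e4, e5] at h3
    have h4 := hA (m + 2 - y) (by omega)
    have h5 := hA (m + 2 - x) (by omega)
    have h6 := hB (m + 1) (by omega)
    have e6 : 2 * (m + 1) = 2 * m + 2 := by ring
    rw [e6] at h6
    show (G (2 * (m + 1)) + 1) / 2 = (G (2 * (m + 2 - x) - 1) + 1) / 2 +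
      (G (2 * (m + 2 - y) - 1) + 1) / 2
    rw [e6]
    omega

lemma IsQ.preG {Q : ℕ → ℤ} (h : IsQ Q) : PreG (fun x : ℤ => Q x.toNat) := by
  obtain ⟨h1, h2, h3⟩ := h
  have hodd : ∀ N : ℕ, ∀ n : ℕ, 1 ≤ n → n ≤ N → Q n % 2 = 1 := by
    intro N
    induction N with
    | zero => intro n a b; omega
    | succ N ih =>
      intro n a b
      rcases Nat.lt_or_ge n (N + 1) with h | h
      · exact ih n a (by omega)
      · rcases Nat.lt_or_ge n 3 with h4 | h4
        · interval_cases n
          · rw [h1]; rfl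
          · rw [h2]; rfl
        · obtain ⟨⟨b1, b2⟩, ⟨b3, b4⟩, hr⟩ := h3 n h4
          have o1 := ih ((n : ℤ) - Q (n - 1)).toNat (by omega) (by omega)
          have o2 := ih ((n : ℤ) - Q (n - 2)).toNat (by omega) (by omega)
          rw [hr, ← sg_natCast]
          unfold sg
          split_ifs <;> omega
  refine ⟨by simpa using h1, by simpa using h2, ?_, ?_⟩
  · intro n hn
    exact hodd n.toNat n.toNat (by omega) le_rfl
  · intro n hn _ _ _ _
    obtain ⟨k, rfl⟩ : ∃ k : ℕ, n = k := ⟨n.toNat, by omega⟩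
    have hr := (h3 k (by omega)).2.2
    have e1 : ((k : ℤ) - 1).toNat = k - 1 := by omega
    have e2 : ((k : ℤ) - 2).toNat = k - 2 := by omega
    simp only [e1, e2, Int.toNat_natCast]
    rw [sg_natCast]
    exact hr

/-! ### Existence -/

/-- The sequence, with the indices forced into the legal range. -/
def Q0 : ℕ → ℤ
  | 0 => 1
  | 1 => 1
  | 2 => 1
  | (n + 3) =>
    Q0 (min (n + 2) (max 1 ((n : ℤ) + 3 - Q0 (n + 2)).toNat)) +
    Q0 (min (n + 2) (max 1 ((n : ℤ) + 3 - Q0 (n + 1)).toNat)) + (-1) ^ (n + 3)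
  decreasing_by
  all_goals omega

lemma Q0_rec (n : ℕ) : Q0 (n + 3) =
    Q0 (min (n + 2) (max 1 ((n : ℤ) + 3 - Q0 (n + 2)).toNat)) +
    Q0 (min (n + 2) (max 1 ((n : ℤ) + 3 - Q0 (n + 1)).toNat)) + (-1) ^ (n + 3) := by
  rw [Q0]

lemma Q0_odd (n : ℕ) : Q0 n % 2 = 1 := by
  induction n using Nat.strong_induction_on with
  | _ n ih =>
    match n with
    | 0 => simp [Q0]
    | 1 => simp [Q0]
    | 2 => simp [Q0]
    | (n + 3) =>
      have h1 := ih (min (n + 2) (max 1 ((n : ℤ) + 3 - Q0 (n + 2)).toNat)) (by omega)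
      have h2 := ih (min (n + 2) (max 1 ((n : ℤ) + 3 - Q0 (n + 1)).toNat)) (by omega)
      rw [Q0_rec, ← sg_natCast]
      unfold sg
      split_ifs <;> omega

lemma Q0_step (n : ℕ) (hn : 3 ≤ n) (h1 : 1 ≤ Q0 (n - 1)) (h2 : Q0 (n - 1) ≤ (n : ℤ) - 1)
    (h3 : 1 ≤ Q0 (n - 2)) (h4 : Q0 (n - 2) ≤ (n : ℤ) - 1) :
    Q0 n = Q0 ((n : ℤ) - Q0 (n - 1)).toNat + Q0 ((n : ℤ) - Q0 (n - 2)).toNat + (-1) ^ n := by
  obtain ⟨m, rfl⟩ : ∃ m, n = m + 3 := ⟨n - 3, by omega⟩
  have e1 : m + 3 - 1 = m + 2 := by omega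
  have e2 : m + 3 - 2 = m + 1 := by omega
  rw [e1] at h1 h2 ⊢
  rw [e2] at h3 h4 ⊢
  push_cast at h2 h4 ⊢
  rw [Q0_rec]
  have e3 : min (m + 2) (max 1 ((m : ℤ) + 3 - Q0 (m + 2)).toNat) =
      ((m : ℤ) + 3 - Q0 (m + 2)).toNat := by omega
  have e4 : min (m + 2) (max 1 ((m : ℤ) + 3 - Q0 (m + 1)).toNat) =
      ((m : ℤ) + 3 - Q0 (m + 1)).toNat := by omega
  rw [e3, e4]

lemma Q0_preG : PreG (fun x : ℤ => Q0 x.toNat) := by
  refine ⟨by simp [Q0], by simp [Q0], fun n _ => Q0_odd _, ?_⟩
  intro n hn a1 a2 a3 a4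
  obtain ⟨k, rfl⟩ : ∃ k : ℕ, n = k := ⟨n.toNat, by omega⟩
  have e1 : ((k : ℤ) - 1).toNat = k - 1 := by omega
  have e2 : ((k : ℤ) - 2).toNat = k - 2 := by omega
  simp only [e1, e2, Int.toNat_natCast] at a1 a2 a3 a4 ⊢
  rw [sg_natCast]
  exact Q0_step k (by omega) a1 a2 a3 a4

lemma Q0_legal (n : ℕ) (hn : 1 ≤ n) : 1 ≤ Q0 n ∧ Q0 n ≤ n := by
  have hL := legal_all Q0_preG.pre
  have ho := Q0_odd n
  rcases Nat.even_or_odd' n with ⟨m, hm | hm⟩
  · have h := (hL (m : ℤ) (by omega)).2
    have e : (2 * (m : ℤ)).toNat = n := by omega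
    simp only [e] at h
    omega
  · have h := (hL ((m : ℤ) + 1) (by omega)).1
    have e : (2 * ((m : ℤ) + 1) - 1).toNat = n := by omega
    simp only [e] at h
    omega

lemma exists_isQ : ∃ Q : ℕ → ℤ, IsQ Q := by
  refine ⟨Q0, by simp [Q0], by simp [Q0], ?_⟩
  intro n hn
  have h1 := Q0_legal (n - 1) (by omega)
  have h2 := Q0_legal (n - 2) (by omega)
  exact ⟨⟨by omega, by omega⟩, ⟨by omega, by omega⟩,
    Q0_step n hn h1.1 (by omega) h2.1 (by omega)⟩

/-! ### Finite-valued regular sequences have a finite kernel -/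

open Module in
/-- A finite-dimensional space of functions is separated by finitely many points. -/
lemma exists_sep (V : Submodule ℚ (ℕ → ℚ)) [FiniteDimensional ℚ V] :
    ∃ N : ℕ, ∀ f ∈ V, (∀ i < N, f i = 0) → f = 0 := by
  classical
  let W : ℕ → Submodule ℚ (ℕ → ℚ) := fun N =>
    { carrier := {f | f ∈ V ∧ ∀ i < N, f i = 0}
      add_mem' := by
        rintro f g ⟨h1, h2⟩ ⟨h3, h4⟩
        refine ⟨V.add_mem h1 h3, fun i hi => ?_⟩
        simp [h2 i hi, h4 i hi]
      zero_mem' := ⟨V.zero_mem, fun i _ => rfl⟩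
      smul_mem' := by
        rintro c f ⟨h1, h2⟩
        refine ⟨V.smul_mem c h1, fun i hi => ?_⟩
        simp [h2 i hi] }
  have hWV : ∀ N, W N ≤ V := fun N f hf => hf.1
  have hfin : ∀ N, FiniteDimensional ℚ (W N) := fun N =>
    Submodule.finiteDimensional_of_le (hWV N)
  -- choose `N` with the smallest rank
  obtain ⟨N, hN⟩ : ∃ N, ∀ M, finrank ℚ (W N) ≤ finrank ℚ (W M) := by
    have hne : (Set.range fun N => finrank ℚ (W N)).Nonempty := ⟨_, 0, rfl⟩
    obtain ⟨N, hN⟩ := Nat.sInf_mem hne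
    refine ⟨N, fun M => ?_⟩
    have h1 : finrank ℚ (W N) = sInf (Set.range fun N => finrank ℚ (W N)) := hN
    rw [h1]
    exact Nat.sInf_le ⟨M, rfl⟩
  refine ⟨N, fun f hf h0 => ?_⟩
  by_contra hne
  obtain ⟨j, hj⟩ : ∃ j, f j ≠ 0 := by
    by_contra hcon
    push Not at hcon
    exact hne (funext hcon)
  have hle : W (max N (j + 1)) ≤ W N := fun g hg => ⟨hg.1, fun i hi => hg.2 i (by omega)⟩
  have hlt : W (max N (j + 1)) < W N := by
    refine lt_of_le_of_ne hle fun heq => ?_
    have h1 : f ∈ W N := ⟨hf, h0⟩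
    rw [← heq] at h1
    exact hj (h1.2 j (by omega))
  have h2 := Submodule.finrank_lt_finrank_of_lt hlt
  have h3 := hN (max N (j + 1))
  omega

lemma kernel_finite {t : ℕ → ℤ} (ht : IsRegular 4 t) (hfin : (Set.range t).Finite) :
    (kernel 4 t).Finite := by
  classical
  obtain ⟨S, hS⟩ := ht
  let cast : (ℕ → ℤ) → (ℕ → ℚ) := fun f n => (f n : ℚ)
  let V : Submodule ℚ (ℕ → ℚ) := Submodule.span ℚ (cast '' (S : Set (ℕ → ℤ)))
  have hVfin : FiniteDimensional ℚ V := FiniteDimensional.span_of_finite ℚ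
    (S.finite_toSet.image cast)
  have hmem : ∀ f ∈ Submodule.span ℤ (kernel 4 t), cast f ∈ V := by
    intro f hf
    rw [← hS] at hf
    induction hf using Submodule.span_induction with
    | mem x hx => exact Submodule.subset_span ⟨x, hx, rfl⟩
    | zero =>
      have : cast 0 = 0 := by funext n; simp [cast]
      rw [this]; exact V.zero_mem
    | add x y _ _ hx hy =>
      have : cast (x + y) = cast x + cast y := by funext n; simp [cast]
      rw [this]; exact V.add_mem hx hy
    | smul a x _ hx =>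
      have : cast (a • x) = (a : ℚ) • cast x := by funext n; simp [cast]
      rw [this]; exact V.smul_mem _ hx
  obtain ⟨N, hN⟩ := exists_sep V
  have hT : Finite (Set.range t) := hfin
  have hrange : ∀ g ∈ kernel 4 t, ∀ n, g n ∈ Set.range t := by
    rintro g ⟨e, j, _, rfl⟩ n
    exact ⟨_, rfl⟩
  let F : kernel 4 t → (Fin N → Set.range t) := fun g i => ⟨g.1 i, hrange g.1 g.2 i⟩
  have hF : Function.Injective F := by
    intro g g' hgg
    have h1 : ∀ i < N, g.1 i = g'.1 i := by
      intro i hi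
      have := congrFun hgg ⟨i, hi⟩
      exact congrArg Subtype.val this
    have h2 : cast g.1 - cast g'.1 ∈ V := V.sub_mem (hmem _ (Submodule.subset_span g.2))
      (hmem _ (Submodule.subset_span g'.2))
    have h3 := hN _ h2 (fun i hi => by simp [cast, h1 i hi])
    apply Subtype.ext
    funext n
    have h4 := congrFun h3 n
    simp only [cast, Pi.sub_apply, Pi.zero_apply] at h4
    have h5 : (g.1 n : ℚ) = (g'.1 n : ℚ) := by linarith
    exact_mod_cast h5
  have : Finite (kernel 4 t) := Finite.of_injective F hF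
  exact this

/-! ### The contradiction -/

/-- The numbers `(4^p - 1)/3`. -/
def R : ℕ → ℕ
  | 0 => 0
  | (p + 1) => 4 * R p + 1

lemma R_add (p e : ℕ) : R (p + e) = 4 ^ e * R p + R e := by
  induction e with
  | zero => simp [R]
  | succ e ih =>
    have h : p + (e + 1) = (p + e) + 1 := by ring
    rw [h, R, R, ih]
    ring

lemma R_aa (r : ℕ) : (R (r + 3) : ℤ) = 8 * aa r - 3 := by
  induction r with
  | zero => simp [R, aa]
  | succ r ih =>
    have h : r + 1 + 3 = (r + 3) + 1 := by ring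
    rw [h, R, aa]
    push_cast
    rw [ih]
    ring

lemma R_lt (e : ℕ) : R e < 4 ^ e := by
  induction e with
  | zero => simp [R]
  | succ e ih => rw [R, pow_succ]; omega

lemma R_ge (e : ℕ) (he : 3 ≤ e) : 4 * e ≤ R e := by
  induction e, he using Nat.le_induction with
  | base => decide
  | succ e _ ih => rw [R]; omega

lemma not_eventually {Q : ℕ → ℤ} (hQ : IsQ Q) {t : ℕ → ℤ} (ht : IsRegular 4 t) (N : ℕ)
    (hN : ∀ n ≥ N, Int.sign (Q (n + 1) - Q n) = t n) : False := by
  classical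
  have hG := hQ.preG
  have hp := hG.pre
  set A : ℤ → ℤ := fun m => (Q (2 * m - 1).toNat + 1) / 2 with hAdef
  set B : ℤ → ℤ := fun m => (Q (2 * m).toNat + 1) / 2 with hBdef
  -- the values of `t`
  have hfin : (Set.range t).Finite := by
    have h1 : Set.range t ⊆ (t '' (Set.Iio N)) ∪ ({-1, 0, 1} : Set ℤ) := by
      rintro x ⟨n, rfl⟩
      rcases Nat.lt_or_ge n N with h | h
      · left; exact ⟨n, h, rfl⟩
      · right
        rw [← hN n h]
        rcases Int.sign_trichotomy (Q (n + 1) - Q n) with h | h | h <;> rw [h] <;> simp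
    exact Set.Finite.subset (((Set.finite_Iio N).image t).union (by simp)) h1
  have hK := kernel_finite ht hfin
  have hKf : Finite (kernel 4 t) := hK
  have hTf : Finite (Set.range t) := hfin
  have hrange : ∀ g ∈ kernel 4 t, ∀ n, g n ∈ Set.range t := by
    rintro g ⟨e, j, _, rfl⟩ n
    exact ⟨_, rfl⟩
  let F : ℕ → (kernel 4 t → Set.range t) := fun p g => ⟨g.1 (R p), hrange g.1 g.2 (R p)⟩
  obtain ⟨p₁, p₂, hne, heq⟩ := Finite.exists_ne_map_eq_of_infinite F
  -- order the two prefixes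
  obtain ⟨p, p', hlt, hpp⟩ : ∃ p p', p < p' ∧ F p = F p' := by
    rcases Nat.lt_or_gt_of_ne hne with h | h
    · exact ⟨p₁, p₂, h, heq⟩
    · exact ⟨p₂, p₁, h, heq.symm⟩
  set e := N + p' + 3 with he
  obtain ⟨r, hr⟩ : ∃ r, p + e = r + 3 := ⟨p + e - 3, by omega⟩
  obtain ⟨r', hr'⟩ : ∃ r', p' + e = r' + 3 := ⟨p' + e - 3, by omega⟩
  have hRe := R_ge e (by omega)
  have hlt' := R_lt e
  obtain ⟨c, hc⟩ : ∃ c, R e = c + (2 * r' + 2) := ⟨R e - (2 * r' + 2), by omega⟩
  have hkey : t (4 ^ e * R p + c) = t (4 ^ e * R p' + c) := by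
    have hg : (fun n => t (4 ^ e * n + c)) ∈ kernel 4 t := ⟨e, c, by omega, rfl⟩
    have := congrFun hpp ⟨_, hg⟩
    exact congrArg Subtype.val this
  -- the two positions
  have h1 := R_add p e
  have h2 := R_add p' e
  have h3 := R_aa r
  have h4 := R_aa r'
  rw [hr] at h1
  rw [hr'] at h2
  generalize 4 ^ e * R p = X₁ at h1 hkey
  generalize 4 ^ e * R p' = X₂ at h2 hkey
  have ha := aa_ge r
  have ha' := aa_ge r'
  obtain ⟨P1, -⟩ := phases hp r
  obtain ⟨P2, -⟩ := phases hp r'
  have hAodd : ∀ m : ℤ, 1 ≤ m → Q (2 * m - 1).toNat = 2 * A m - 1 := by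
    intro m hm
    have := hG.odd (2 * m - 1) (by omega)
    simp only [hAdef]
    omega
  have hBodd : ∀ m : ℤ, 1 ≤ m → Q (2 * m).toNat = 2 * B m - 1 := by
    intro m hm
    have := hG.odd (2 * m) (by omega)
    simp only [hBdef]
    omega
  have hsign : ∀ m : ℤ, ∀ n : ℕ, 1 ≤ m → (n : ℤ) = 2 * m - 1 →
      Q (n + 1) - Q n = 2 * (B m - A m) := by
    intro m n hm hn
    have e1 : (2 * m).toNat = n + 1 := by omega
    have e2 : (2 * m - 1).toNat = n := by omega
    have h5 := hAodd m hm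
    have h6 := hBodd m hm
    rw [e2] at h5
    rw [e1] at h6
    omega
  -- the first position
  set m₁ : ℤ := 4 * aa r - (r + 2) - ((p' : ℤ) - p) with hm₁
  set n₁ := X₁ + c with hn₁
  have hn₁' : (n₁ : ℤ) = 2 * m₁ - 1 := by omega
  have hs₁ := hsign m₁ n₁ (by omega) hn₁'
  have hpos := P1.pos m₁ (by omega) (by omega)
  have ht₁ : t n₁ = 1 := by
    rw [← hN n₁ (by omega), hs₁, Int.sign_eq_one_iff_pos]
    omega
  -- the second position
  set m₂ : ℤ := 4 * aa r' - (r' + 2) with hm₂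
  set n₂ := X₂ + c with hn₂
  have hn₂' : (n₂ : ℤ) = 2 * m₂ - 1 := by omega
  have hs₂ := hsign m₂ n₂ (by omega) hn₂'
  have hz : B m₂ - A m₂ = 0 := by
    have h5 := P2.vA
    have h6 := P2.vB
    rw [← hm₂] at h5 h6
    omega
  have ht₂ : t n₂ = 0 := by
    rw [← hN n₂ (by omega), hs₂, hz]
    simp
  omega

/-- The perturbed Hofstadter sequence `Q` is well defined and the sequence
`s n = sign (Q (n+1) - Q n)` is not eventually `4`-regular. -/
theorem result : (∃ Q : ℕ → ℤ, IsQ Q) ∧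
    ∀ Q : ℕ → ℤ, IsQ Q → ∀ t : ℕ → ℤ, IsRegular 4 t →
      ∀ N : ℕ, ∃ n ≥ N, Int.sign (Q (n + 1) - Q n) ≠ t n := by
  refine ⟨exists_isQ, fun Q hQ t ht N => ?_⟩
  by_contra hcon
  push Not at hcon
  exact not_eventually hQ ht N hcon

end Pool.Agent.Results.MP_f18a8d_nt.NotRegular
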